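import Mathlib

set_option autoImplicit false

namespace Pool.Agent.Results.MP_6a54e9_co.Counter

/-- Block number, first and second coordinate (times ten) of the vertices of the first simplex. -/
private def dA (i : Fin 9) : ℕ × ℤ × ℤ :=
  [(0, 5, 5), (0, 5, -5), (1, 5, 5), (1, 5, -5), (2, 5, 5), (2, 5, -5),
    (3, 7, 1), (4, 7, 1), (5, 7, 1)].getD i.val (0, 0, 0)

private def dB (i : Fin 9) : ℕ × ℤ × ℤ :=
  [(3, 5, 5), (3, 5, -5), (4, 5, 5), (4, 5, -5), (5, 5, 5), (5, 5, -5),
    (0, 7, 1), (1, 7, 1), (2, 7, 1)].getD i.val (0, 0, 0)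

private def vec (p : ℕ × ℤ × ℤ) (c : Fin 12) : ℤ :=
  if c.val = 2 * p.1 then p.2.1 else if c.val = 2 * p.1 + 1 then p.2.2 else 0

private def sq2 (u v : Fin 12 → ℤ) : ℤ := ∑ c, (u c - v c) ^ 2

private noncomputable def pt (u : Fin 12 → ℤ) : EuclideanSpace ℝ (Fin 12) :=
  WithLp.toLp 2 fun c => (u c : ℝ) / 10

private lemma dist_pt (u v : Fin 12 → ℤ) :
    dist (pt u) (pt v) = Real.sqrt ((sq2 u v : ℝ) / 100) := by
  rw [EuclideanSpace.dist_eq]
  congr 1
  simp only [pt, sq2, Real.dist_eq, sq_abs]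
  push_cast
  rw [Finset.sum_div]
  refine Finset.sum_congr rfl fun c _ => ?_
  ring

private lemma hAA : ∀ i j : Fin 9, i ≠ j → sq2 (vec (dA i)) (vec (dA j)) = 100 := by
  decide +kernel

private lemma hBB : ∀ i j : Fin 9, i ≠ j → sq2 (vec (dB i)) (vec (dB j)) = 100 := by
  decide +kernel

private lemma hAB : ∀ i j : Fin 9, 0 < sq2 (vec (dA i)) (vec (dB j)) ∧
    sq2 (vec (dA i)) (vec (dB j)) ≤ 100 := by
  decide +kernel

private lemma dAA (i j : Fin 9) (h : i ≠ j) : dist (pt (vec (dA i))) (pt (vec (dA j))) = 1 := by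
  rw [dist_pt, hAA i j h]; norm_num

private lemma dBB (i j : Fin 9) (h : i ≠ j) : dist (pt (vec (dB i))) (pt (vec (dB j))) = 1 := by
  rw [dist_pt, hBB i j h]; norm_num

private lemma dAB (i j : Fin 9) : 0 < dist (pt (vec (dA i))) (pt (vec (dB j))) ∧
    dist (pt (vec (dA i))) (pt (vec (dB j))) ≤ 1 := by
  rw [dist_pt]
  have h1 : (0 : ℝ) < sq2 (vec (dA i)) (vec (dB j)) := by exact_mod_cast (hAB i j).1
  have h2 : (sq2 (vec (dA i)) (vec (dB j)) : ℝ) ≤ 100 := by exact_mod_cast (hAB i j).2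
  refine ⟨Real.sqrt_pos.2 (by positivity), ?_⟩
  rw [Real.sqrt_le_left zero_le_one]
  linarith

open Classical in
theorem result :
    ¬ (∀ d k m : ℕ, 2 ≤ d → m ≤ k → k ≤ d →
      ∀ S₁ S₂ : Finset (EuclideanSpace ℝ (Fin d)),
        S₁.card = k + 1 → S₂.card = m + 1 →
        (∀ x ∈ S₁, ∀ y ∈ S₁, x ≠ y → dist x y = 1) →
        (∀ x ∈ S₂, ∀ y ∈ S₂, x ≠ y → dist x y = 1) →
        (∀ x ∈ S₁ ∪ S₂, ∀ y ∈ S₁ ∪ S₂, dist x y ≤ 1) →
        max 0 ((k : ℤ) + 2 * m - 2 * d + 1) ≤ ((S₁ ∩ S₂).card : ℤ)) := by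
  intro H
  have iA : Function.Injective fun i => pt (vec (dA i)) := by
    intro i j h
    by_contra hij
    have := dAA i j hij
    simp only at h
    rw [h, dist_self] at this
    norm_num at this
  have iB : Function.Injective fun i => pt (vec (dB i)) := by
    intro i j h
    by_contra hij
    have := dBB i j hij
    simp only at h
    rw [h, dist_self] at this
    norm_num at this
  have key := H 12 8 8 (by norm_num) le_rfl (by norm_num)
    (Finset.univ.image fun i => pt (vec (dA i))) (Finset.univ.image fun i => pt (vec (dB i)))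
    (by rw [Finset.card_image_of_injective _ iA]; simp)
    (by rw [Finset.card_image_of_injective _ iB]; simp)
    (by
      intro x hx y hy hxy
      obtain ⟨i, -, rfl⟩ := Finset.mem_image.1 hx
      obtain ⟨j, -, rfl⟩ := Finset.mem_image.1 hy
      exact dAA i j (fun h => hxy (by rw [h])))
    (by
      intro x hx y hy hxy
      obtain ⟨i, -, rfl⟩ := Finset.mem_image.1 hx
      obtain ⟨j, -, rfl⟩ := Finset.mem_image.1 hy
      exact dBB i j (fun h => hxy (by rw [h])))
    (by
      intro x hx y hy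
      rcases Finset.mem_union.1 hx with hx | hx <;> rcases Finset.mem_union.1 hy with hy | hy <;>
        obtain ⟨i, -, rfl⟩ := Finset.mem_image.1 hx <;> obtain ⟨j, -, rfl⟩ := Finset.mem_image.1 hy
      · by_cases h : i = j
        · subst h; simp
        · exact (dAA i j h).le
      · exact (dAB i j).2
      · rw [dist_comm]; exact (dAB j i).2
      · by_cases h : i = j
        · subst h; simp
        · exact (dBB i j h).le)
  have hemp : (Finset.univ.image fun i => pt (vec (dA i))) ∩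
      (Finset.univ.image fun i => pt (vec (dB i))) = ∅ := by
    rw [Finset.eq_empty_iff_forall_notMem]
    intro x hx
    obtain ⟨h1, h2⟩ := Finset.mem_inter.1 hx
    obtain ⟨i, -, rfl⟩ := Finset.mem_image.1 h1
    obtain ⟨j, -, hj⟩ := Finset.mem_image.1 h2
    have := (dAB i j).1
    rw [hj, dist_self] at this
    exact lt_irrefl _ this
  rw [hemp] at key
  norm_num at key

end Pool.Agent.Results.MP_6a54e9_co.Counter
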